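import Pool.Agent.Helper75.KM.StmtsC

/-!
# STR: strong type from the cardinality bound
-/

set_option autoImplicit false

namespace Pool.Agent.Helper75.KM

open Pool.Agent.Helper8.Kak Pool.Agent.Helper89.KakGeo

/-- polynomials are dominated by exponentials -/
theorem str_poly {k c : ℝ} (hk : 0 < k) (hc : 0 < c) :
    ∃ C : ℝ, 0 < C ∧ ∀ N : ℕ, (2 * (N : ℝ) + 2) ^ k ≤ C * Real.exp (c * N) := by
  refine ⟨(2 * k / c) ^ k * Real.exp c, by positivity, fun N => ?_⟩
  have h1 : c * (2 * (N : ℝ) + 2) / (2 * k) ≤ Real.exp (c * (2 * (N : ℝ) + 2) / (2 * k)) := by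
    have := Real.add_one_le_exp (c * (2 * (N : ℝ) + 2) / (2 * k))
    linarith
  have h2 : 2 * (N : ℝ) + 2 ≤ 2 * k / c * Real.exp (c * (2 * (N : ℝ) + 2) / (2 * k)) := by
    have h3 := mul_le_mul_of_nonneg_left h1 (show 0 ≤ 2 * k / c by positivity)
    have h4 : 2 * k / c * (c * (2 * (N : ℝ) + 2) / (2 * k)) = 2 * (N : ℝ) + 2 := by
      field_simp
    rw [h4] at h3
    exact h3
  have h5 := Real.rpow_le_rpow (by positivity) h2 hk.le
  refine h5.trans (le_of_eq ?_)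
  rw [Real.mul_rpow (by positivity) (Real.exp_pos _).le, ← Real.exp_mul, mul_assoc, ← Real.exp_add]
  congr 2
  field_simp
  ring

/-- the power of a sum -/
theorem str_pow {q : ℝ} (hq : 0 < q) (k : ℕ) (y : ℕ → ℝ) (hy : ∀ i, 0 ≤ y i) (z : ℝ) (hz : 0 ≤ z) :
    (z + ∑ i ∈ Finset.range k, y i) ^ q
      ≤ ((k : ℝ) + 1) ^ q * (z ^ q + ∑ i ∈ Finset.range k, y i ^ q) := by
  obtain ⟨T, hT⟩ : ∃ T, T = z ^ q + ∑ i ∈ Finset.range k, y i ^ q := ⟨_, rfl⟩
  have hs0 : ∀ i ∈ Finset.range k, 0 ≤ y i ^ q := fun i _ => Real.rpow_nonneg (hy i) q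
  have hz0 : 0 ≤ z ^ q := Real.rpow_nonneg hz q
  have hT0 : 0 ≤ T := by
    rw [hT]
    exact add_nonneg hz0 (Finset.sum_nonneg hs0)
  have hroot : ∀ w : ℝ, 0 ≤ w → w ^ q ≤ T → w ≤ T ^ (1 / q) := by
    intro w hw h
    have h1 := Real.rpow_le_rpow (Real.rpow_nonneg hw q) h (show 0 ≤ 1 / q by positivity)
    rw [← Real.rpow_mul hw, mul_one_div_cancel hq.ne', Real.rpow_one] at h1
    exact h1
  have hz1 : z ≤ T ^ (1 / q) := by
    apply hroot z hz
    rw [hT]
    linarith [Finset.sum_nonneg hs0]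
  have hy1 : ∀ i ∈ Finset.range k, y i ≤ T ^ (1 / q) := by
    intro i hi
    apply hroot (y i) (hy i)
    rw [hT]
    linarith [Finset.single_le_sum hs0 hi]
  have hsum : z + ∑ i ∈ Finset.range k, y i ≤ ((k : ℝ) + 1) * T ^ (1 / q) := by
    have h1 := Finset.sum_le_sum hy1
    rw [Finset.sum_const, Finset.card_range, nsmul_eq_mul] at h1
    linarith
  have h2 := Real.rpow_le_rpow (add_nonneg hz (Finset.sum_nonneg fun i _ => hy i)) hsum hq.le
  rw [Real.mul_rpow (by positivity) (Real.rpow_nonneg hT0 _), ← Real.rpow_mul hT0,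
    one_div_mul_cancel hq.ne', Real.rpow_one, hT] at h2
  exact h2

/-- dyadic decomposition of a function value -/
theorem str_level {s M φ : ℝ} {N : ℕ} (hs : 0 < s) (hM : M = 2 ^ N) (h : φ ≤ M * s)
    (P : ℕ → Prop) [DecidablePred P]
    (hP : ∀ i, s * (2 ^ i / M) ≤ φ → φ < s * (2 ^ (i + 1) / M) → P i) :
    φ ≤ s / M + ∑ i ∈ Finset.range (2 * N + 1), if P i then s * (2 * (2 ^ i / M)) else 0 := by
  have hM0 : 0 < M := by rw [hM]; positivity
  have hnn : ∀ i ∈ Finset.range (2 * N + 1),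
      0 ≤ if P i then s * (2 * ((2 : ℝ) ^ i / M)) else 0 := by
    intro i _
    split_ifs
    · positivity
    · exact le_rfl
  by_cases h1 : φ < s / M
  · linarith [Finset.sum_nonneg hnn]
  · rw [not_lt] at h1
    have h2 : 1 ≤ φ * M / s := by
      rw [le_div_iff₀ hs, one_mul]
      rw [div_le_iff₀ hM0] at h1
      exact h1
    obtain ⟨i, hi1, hi2⟩ := exists_nat_pow_near h2 (one_lt_two : (1 : ℝ) < 2)
    have hi3 : s * (2 ^ i / M) ≤ φ := by
      rw [le_div_iff₀ hs] at hi1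
      rw [← mul_div_assoc, div_le_iff₀ hM0]
      linarith
    have hi4 : φ < s * (2 ^ (i + 1) / M) := by
      rw [div_lt_iff₀ hs] at hi2
      rw [← mul_div_assoc, lt_div_iff₀ hM0]
      linarith
    have hi5 : i < 2 * N + 1 := by
      have h3 : (2 : ℝ) ^ i ≤ 2 ^ (2 * N) := by
        refine hi1.trans ?_
        rw [div_le_iff₀ hs]
        have h4 := mul_le_mul_of_nonneg_right h hM0.le
        have h5 : (2 : ℝ) ^ (2 * N) = M * M := by
          rw [hM]
          ring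
        rw [h5]
        linarith
      have h4 := (pow_le_pow_iff_right₀ (one_lt_two : (1 : ℝ) < 2)).1 h3
      omega
    have h6 := Finset.single_le_sum hnn (Finset.mem_range.2 hi5)
    rw [if_pos (hP i hi3 hi4)] at h6
    have h7 : 0 < s / M := by positivity
    have h8 : s * (2 ^ (i + 1) / M) = s * (2 * (2 ^ i / M)) := by ring
    linarith

/-- dyadic decomposition of a density -/
theorem str_dens {q a lm : ℝ} {N : ℕ} (hq : 0 < q) (ha : 0 ≤ a) (h0 : lm = 0 ∨ 1 / 2 ^ N ≤ lm)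
    (h1 : lm ≤ 1) :
    (a * lm) ^ q ≤ ∑ j ∈ Finset.range (N + 1),
      if 1 / 2 ^ (j + 1) ≤ lm then (if lm ≤ 1 / 2 ^ j then (a * (1 / 2 ^ j)) ^ q else 0) else 0 := by
  have hnn : ∀ j ∈ Finset.range (N + 1), 0 ≤ if (1 : ℝ) / 2 ^ (j + 1) ≤ lm then
      (if lm ≤ 1 / 2 ^ j then (a * (1 / 2 ^ j)) ^ q else 0) else 0 := by
    intro j _
    split_ifs
    · exact Real.rpow_nonneg (by positivity) q
    · exact le_rfl
    · exact le_rfl
  rcases h0 with h0 | h0
  · rw [h0, mul_zero, Real.zero_rpow hq.ne']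
    rw [h0] at hnn
    exact Finset.sum_nonneg hnn
  · have hl : 0 < lm := lt_of_lt_of_le (by positivity) h0
    have h2 : 1 ≤ 1 / lm := by
      rw [le_div_iff₀ hl]
      linarith
    obtain ⟨j, hj1, hj2⟩ := exists_nat_pow_near h2 (one_lt_two : (1 : ℝ) < 2)
    have hj3 : lm ≤ 1 / 2 ^ j := by
      rw [le_div_iff₀ hl] at hj1
      rw [le_div_iff₀ (by positivity)]
      linarith
    have hj4 : 1 / 2 ^ (j + 1) ≤ lm := by
      rw [div_lt_iff₀ hl] at hj2
      rw [div_le_iff₀ (by positivity)]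
      linarith
    have hj5 : j < N + 1 := by
      have h3 : (2 : ℝ) ^ j ≤ 2 ^ N := by
        refine hj1.trans ?_
        rw [div_le_iff₀ hl]
        rw [div_le_iff₀ (by positivity)] at h0
        linarith
      have h4 := (pow_le_pow_iff_right₀ (one_lt_two : (1 : ℝ) < 2)).1 h3
      omega
    have h6 := Finset.single_le_sum hnn (Finset.mem_range.2 hj5)
    rw [if_pos hj4, if_pos hj3] at h6
    refine le_trans ?_ h6
    exact Real.rpow_le_rpow (by positivity) (mul_le_mul_of_nonneg_left hj3 ha) hq.le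

/-- the contribution of one level set -/
theorem str_one {m : ℕ} {α : ℝ} (hα : 1 ≤ α) {ε C : ℝ} (hC : 0 < C) {N : ℕ} {L : Type} [Fintype L]
    (x v : L → Fin m → ℝ) (hv : Dirs N v)
    (hDB : ∀ (L : Type) [Fintype L] (x v : L → Fin m → ℝ),
      Dirs N v → ∀ (lam : ℝ), 0 < lam → lam ≤ 1 → ∀ (Y : L → Finset (Fin (2 ^ N)))
      (E : Finset ((Fin m → ℤ) × Fin (2 ^ N))),
      (∀ l, lam * 2 ^ N ≤ ((Y l).card : ℝ)) → (∀ l, ∀ t ∈ Y l, (ptn N x v l t, t) ∈ E) →
      (Fintype.card L : ℝ) ≤ C * Real.exp (ε * N) * ((E.card : ℝ) / 2 ^ N) ^ α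
        * lam ^ (-((m : ℝ) + α)))
    (Y : L → Finset (Fin (2 ^ N))) (E : Finset ((Fin m → ℤ) × Fin (2 ^ N)))
    (hY : ∀ l, ∀ t ∈ Y l, (ptn N x v l t, t) ∈ E) {r : ℝ} (hr : 0 < r)
    (hE : ((E.card : ℝ) / 2 ^ N) ^ α * r ^ ((m : ℝ) + α) ≤ 1) :
    ∑ l, (2 * r * (((Y l).card : ℝ) / 2 ^ N)) ^ ((m : ℝ) + α)
      ≤ ((N : ℝ) + 1) * (C * Real.exp (ε * N) * 4 ^ ((m : ℝ) + α)) := by
  classical
  obtain ⟨q, hq⟩ : ∃ q, q = (m : ℝ) + α := ⟨_, rfl⟩
  have hq0 : 0 < q := by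
    rw [hq]
    positivity
  rw [← hq] at hE ⊢
  have hM0 : (0 : ℝ) < 2 ^ N := by positivity
  have h1 : ∀ l, (2 * r * (((Y l).card : ℝ) / 2 ^ N)) ^ q ≤ ∑ j ∈ Finset.range (N + 1),
      if 1 / 2 ^ (j + 1) ≤ ((Y l).card : ℝ) / 2 ^ N then
        (if ((Y l).card : ℝ) / 2 ^ N ≤ 1 / 2 ^ j then (2 * r * (1 / 2 ^ j)) ^ q else 0) else 0 := by
    intro l
    apply str_dens hq0 (by positivity)
    · by_cases h : (Y l).card = 0
      · left
        rw [h]
        simp
      · right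
        have h2 : (1 : ℝ) ≤ ((Y l).card : ℝ) := by
          exact_mod_cast Nat.one_le_iff_ne_zero.2 h
        exact div_le_div_of_nonneg_right h2 hM0.le
    · rw [div_le_one hM0]
      have h2 := Finset.card_le_univ (Y l)
      rw [Fintype.card_fin] at h2
      exact_mod_cast h2
  have h2 : ∑ l, (2 * r * (((Y l).card : ℝ) / 2 ^ N)) ^ q ≤ ∑ j ∈ Finset.range (N + 1), ∑ l,
      if 1 / 2 ^ (j + 1) ≤ ((Y l).card : ℝ) / 2 ^ N then
        (if ((Y l).card : ℝ) / 2 ^ N ≤ 1 / 2 ^ j then (2 * r * (1 / 2 ^ j)) ^ q else 0) else 0 := by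
    rw [Finset.sum_comm]
    exact Finset.sum_le_sum fun l _ => h1 l
  have h3 : ∀ j ∈ Finset.range (N + 1), ∑ l,
      (if 1 / 2 ^ (j + 1) ≤ ((Y l).card : ℝ) / 2 ^ N then
        (if ((Y l).card : ℝ) / 2 ^ N ≤ 1 / 2 ^ j then (2 * r * (1 / 2 ^ j)) ^ q else 0) else 0)
      ≤ C * Real.exp (ε * N) * 4 ^ q := by
    intro j _
    have h4 : ∑ l, (if 1 / 2 ^ (j + 1) ≤ ((Y l).card : ℝ) / 2 ^ N then
        (if ((Y l).card : ℝ) / 2 ^ N ≤ 1 / 2 ^ j then (2 * r * (1 / 2 ^ j)) ^ q else 0) else 0)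
        ≤ ∑ l, (if 1 / 2 ^ (j + 1) ≤ ((Y l).card : ℝ) / 2 ^ N then
          (2 * r * (1 / 2 ^ j)) ^ q else 0) := by
      refine Finset.sum_le_sum fun l _ => ?_
      have h5 : 0 ≤ (2 * r * (1 / 2 ^ j)) ^ q := Real.rpow_nonneg (by positivity) q
      split_ifs <;> first | exact le_rfl | exact h5
    have h5 : ∑ l, (if 1 / 2 ^ (j + 1) ≤ ((Y l).card : ℝ) / 2 ^ N then
          (2 * r * (1 / 2 ^ j)) ^ q else 0)
        = (Fintype.card {l // 1 / 2 ^ (j + 1) ≤ ((Y l).card : ℝ) / 2 ^ N} : ℝ)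
          * (2 * r * (1 / 2 ^ j)) ^ q := by
      rw [← Finset.sum_filter, Finset.sum_const, nsmul_eq_mul, Fintype.card_subtype]
    have h6 := hDB {l // 1 / 2 ^ (j + 1) ≤ ((Y l).card : ℝ) / 2 ^ N}
      (fun l => x l.1) (fun l => v l.1)
      ⟨fun l i => hv.1 l.1 i, fun l l' h => Subtype.ext (hv.2 h)⟩ (1 / 2 ^ (j + 1)) (by positivity)
      (by
        rw [div_le_one (by positivity)]
        exact one_le_pow₀ one_le_two)
      (fun l => Y l.1) E
      (fun l => by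
        have h7 := l.2
        rw [le_div_iff₀ hM0] at h7
        exact h7)
      (fun l t ht => hY l.1 t ht)
    rw [← hq] at h6
    rw [h5] at h4
    refine h4.trans ?_
    have h8 : 0 ≤ (2 * r * (1 / 2 ^ j)) ^ q := Real.rpow_nonneg (by positivity) q
    refine (mul_le_mul_of_nonneg_right h6 h8).trans ?_
    have h9 : ((1 : ℝ) / 2 ^ (j + 1)) ^ (-q) * (2 * r * (1 / 2 ^ j)) ^ q = 4 ^ q * r ^ q := by
      rw [Real.rpow_neg (by positivity), ← Real.inv_rpow (by positivity),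
        ← Real.mul_rpow (by positivity) (by positivity), ← Real.mul_rpow (by norm_num) hr.le]
      congr 1
      field_simp
      ring
    calc C * Real.exp (ε * N) * ((E.card : ℝ) / 2 ^ N) ^ α * (1 / 2 ^ (j + 1)) ^ (-q)
          * (2 * r * (1 / 2 ^ j)) ^ q
        = C * Real.exp (ε * N) * ((E.card : ℝ) / 2 ^ N) ^ α * ((1 / 2 ^ (j + 1)) ^ (-q)
          * (2 * r * (1 / 2 ^ j)) ^ q) := by ring
      _ = C * Real.exp (ε * N) * 4 ^ q * (((E.card : ℝ) / 2 ^ N) ^ α * r ^ q) := by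
          rw [h9]
          ring
      _ ≤ C * Real.exp (ε * N) * 4 ^ q * 1 :=
          mul_le_mul_of_nonneg_left hE (by positivity)
      _ = _ := mul_one _
  refine h2.trans ((Finset.sum_le_sum h3).trans (le_of_eq ?_))
  rw [Finset.sum_const, Finset.card_range, nsmul_eq_mul]
  push_cast
  ring

theorem st_STR (hCARD : ST_CARD) : ST_STR := by
  intro m α hα hDB ε hε
  classical
  obtain ⟨C, hC, hDB'⟩ := hDB (ε / 2) (by positivity)
  obtain ⟨q, hq⟩ : ∃ q, q = (m : ℝ) + α := ⟨_, rfl⟩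
  obtain ⟨d, hd⟩ : ∃ d, d = 1 + (m : ℝ) / α := ⟨_, rfl⟩
  have hα0 : 0 < α := by linarith
  have hm0 : (0 : ℝ) ≤ (m : ℝ) := Nat.cast_nonneg m
  have hq0 : 0 < q := by rw [hq]; linarith
  have hd1 : 1 ≤ d := by
    rw [hd]
    have : 0 ≤ (m : ℝ) / α := by positivity
    linarith
  have hd0 : 0 < d := by linarith
  have hdq : d * α = q := by
    rw [hd, hq]
    field_simp
    ring
  obtain ⟨C2, hC2, hpoly⟩ := str_poly (k := q + 2) (c := ε / 2) (by linarith) (by positivity)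
  refine ⟨C2 * (3 ^ m + C * 4 ^ q), by positivity, ?_⟩
  intro N L _ x v hv φ E hφ hE
  rw [← hq, ← hd]
  obtain ⟨M, hM⟩ : ∃ M : ℝ, M = 2 ^ N := ⟨_, rfl⟩
  have hM0 : 0 < M := by rw [hM]; positivity
  have hM1 : 1 ≤ M := by rw [hM]; exact one_le_pow₀ one_le_two
  obtain ⟨S, hS⟩ : ∃ S, S = (∑ e ∈ E, φ e.1 e.2 ^ d) / 2 ^ N := ⟨_, rfl⟩
  rw [← hS]
  have hφd : ∀ e ∈ E, 0 ≤ φ e.1 e.2 ^ d := fun e _ => Real.rpow_nonneg (hφ _ _) d
  have hsum0 : 0 ≤ ∑ e ∈ E, φ e.1 e.2 ^ d := Finset.sum_nonneg hφd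
  have hS0 : 0 ≤ S := by rw [hS]; positivity
  rcases hS0.lt_or_eq with hSpos | hSz
  · -- main case
    obtain ⟨s, hs⟩ : ∃ s, s = S ^ (1 / d) := ⟨_, rfl⟩
    have hs0 : 0 < s := by rw [hs]; exact Real.rpow_pos_of_pos hSpos _
    have hsd : s ^ d = S := by
      rw [hs, ← Real.rpow_mul hS0, one_div_mul_cancel hd0.ne', Real.rpow_one]
    have hsq : s ^ q = S ^ α := by
      rw [hs, ← Real.rpow_mul hS0]
      congr 1
      rw [← hdq]
      field_simp
    have hsumS : ∑ e ∈ E, φ e.1 e.2 ^ d = M * S := by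
      rw [hS, hM]
      field_simp
    have hub : ∀ e ∈ E, φ e.1 e.2 ≤ M * s := by
      intro e he
      by_contra hcon
      rw [not_le] at hcon
      have h1 := Real.rpow_lt_rpow (by positivity) hcon hd0
      rw [Real.mul_rpow hM0.le hs0.le, hsd] at h1
      have h2 := Finset.single_le_sum hφd he
      rw [hsumS] at h2
      have h3 : M ≤ M ^ d := by
        have := Real.rpow_le_rpow_of_exponent_le hM1 hd1
        rwa [Real.rpow_one] at this
      have h4 := mul_le_mul_of_nonneg_right h3 hS0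
      linarith
    obtain ⟨Ei, hEi⟩ : ∃ Ei : ℕ → Finset ((Fin m → ℤ) × Fin (2 ^ N)), ∀ i, Ei i = E.filter
        (fun e => s * (2 ^ i / M) ≤ φ e.1 e.2 ∧ φ e.1 e.2 < s * (2 ^ (i + 1) / M)) :=
      ⟨_, fun _ => rfl⟩
    obtain ⟨Yi, hYi⟩ : ∃ Yi : ℕ → L → Finset (Fin (2 ^ N)), ∀ i l, Yi i l = Finset.univ.filter
        (fun t => (ptn N x v l t, t) ∈ Ei i) := ⟨_, fun _ _ => rfl⟩
    have hMN : (0 : ℝ) < 2 ^ N := by rw [← hM]; exact hM0
    have hYn : ∀ i l, 0 ≤ 2 * ((2 : ℝ) ^ i / M) * (((Yi i l).card : ℝ) / 2 ^ N) := fun i l =>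
      mul_nonneg (by positivity) (div_nonneg (Nat.cast_nonneg _) hMN.le)
    -- the level sets
    have hcard : ∀ i, (((Ei i).card : ℝ) / 2 ^ N) ^ α * (2 ^ i / M) ^ q ≤ 1 := by
      intro i
      have hr : 0 < (2 : ℝ) ^ i / M := by positivity
      have h1 : ((Ei i).card : ℝ) * (s * (2 ^ i / M)) ^ d ≤ M * S := by
        rw [← hsumS, ← nsmul_eq_mul, ← Finset.sum_const]
        have h2 : ∑ e ∈ Ei i, (s * ((2 : ℝ) ^ i / M)) ^ d ≤ ∑ e ∈ Ei i, φ e.1 e.2 ^ d := by
          refine Finset.sum_le_sum fun e he => ?_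
          rw [hEi, Finset.mem_filter] at he
          exact Real.rpow_le_rpow (by positivity) he.2.1 hd0.le
        refine h2.trans (Finset.sum_le_sum_of_subset_of_nonneg ?_ fun e he _ => hφd e he)
        rw [hEi]
        exact Finset.filter_subset _ _
      rw [Real.mul_rpow hs0.le hr.le, hsd] at h1
      have h2 : ((Ei i).card : ℝ) / 2 ^ N * (2 ^ i / M) ^ d ≤ 1 := by
        have h3 : ((Ei i).card : ℝ) * ((2 ^ i / M) ^ d) * S ≤ M * S := by linarith
        have h4 := le_of_mul_le_mul_right h3 hSpos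
        rw [← hM, div_mul_eq_mul_div, div_le_one hM0]
        exact h4
      have h30 : 0 ≤ ((Ei i).card : ℝ) / 2 ^ N := div_nonneg (Nat.cast_nonneg _) hMN.le
      have h31 : 0 ≤ ((2 : ℝ) ^ i / M) ^ d := Real.rpow_nonneg hr.le d
      have h3 := Real.rpow_le_rpow (mul_nonneg h30 h31) h2 hα0.le
      rw [Real.one_rpow, Real.mul_rpow h30 h31, ← Real.rpow_mul hr.le, hdq] at h3
      exact h3
    have hone : ∀ i, ∑ l, (2 * (2 ^ i / M) * (((Yi i l).card : ℝ) / 2 ^ N)) ^ q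
        ≤ ((N : ℝ) + 1) * (C * Real.exp (ε / 2 * N) * 4 ^ q) := by
      intro i
      have h1 := str_one hα hC x v hv (fun L _ x v => hDB' N L x v) (Yi i) (Ei i)
        (fun l t ht => by
          rw [hYi, Finset.mem_filter] at ht
          exact ht.2) (r := 2 ^ i / M) (by positivity) (by rw [← hq]; exact hcard i)
      rw [← hq] at h1
      exact h1
    -- pointwise bound for the averages
    have hav : ∀ l, av N x v φ l ≤ s * (1 / M + ∑ i ∈ Finset.range (2 * N + 1),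
        2 * (2 ^ i / M) * (((Yi i l).card : ℝ) / 2 ^ N)) := by
      intro l
      unfold av
      have h1 : ∑ t, φ (ptn N x v l t) t ≤ ∑ t : Fin (2 ^ N), (s / M +
          ∑ i ∈ Finset.range (2 * N + 1),
            if (ptn N x v l t, t) ∈ Ei i then s * (2 * (2 ^ i / M)) else 0) := by
        refine Finset.sum_le_sum fun t _ => ?_
        refine str_level hs0 hM (hub _ (hE l t)) (fun i => (ptn N x v l t, t) ∈ Ei i) ?_
        intro i h2 h3
        rw [hEi, Finset.mem_filter]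
        exact ⟨hE l t, h2, h3⟩
      have h2 : ∑ t : Fin (2 ^ N), (s / M + ∑ i ∈ Finset.range (2 * N + 1),
            if (ptn N x v l t, t) ∈ Ei i then s * (2 * (2 ^ i / M)) else 0)
          = M * (s / M) + ∑ i ∈ Finset.range (2 * N + 1),
            ((Yi i l).card : ℝ) * (s * (2 * (2 ^ i / M))) := by
        rw [Finset.sum_add_distrib, Finset.sum_const, Finset.card_univ, Fintype.card_fin,
          nsmul_eq_mul, Finset.sum_comm, hM]
        push_cast
        congr 1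
        refine Finset.sum_congr rfl fun i _ => ?_
        rw [← Finset.sum_filter, Finset.sum_const, nsmul_eq_mul, hYi]
      rw [h2] at h1
      rw [div_le_iff₀ (by positivity)]
      refine h1.trans (le_of_eq ?_)
      rw [← hM, mul_add, add_mul]
      congr 1
      · field_simp
      · rw [Finset.mul_sum, Finset.sum_mul]
        refine Finset.sum_congr rfl fun i _ => ?_
        generalize ((Yi i l).card : ℝ) = w
        field_simp
    have hav0 : ∀ l, 0 ≤ av N x v φ l := fun l =>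
      div_nonneg (Finset.sum_nonneg fun t _ => hφ _ _) hMN.le
    have hpt : ∀ l, av N x v φ l ^ q ≤ s ^ q * ((2 * (N : ℝ) + 2) ^ q * ((1 / M) ^ q +
        ∑ i ∈ Finset.range (2 * N + 1), (2 * (2 ^ i / M) * (((Yi i l).card : ℝ) / 2 ^ N)) ^ q)) := by
      intro l
      have h1 := Real.rpow_le_rpow (hav0 l) (hav l) hq0.le
      have h2 : 0 ≤ 1 / M + ∑ i ∈ Finset.range (2 * N + 1),
          2 * (2 ^ i / M) * (((Yi i l).card : ℝ) / 2 ^ N) :=
        add_nonneg (by positivity) (Finset.sum_nonneg fun i _ => hYn i l)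
      rw [Real.mul_rpow hs0.le h2] at h1
      refine h1.trans (mul_le_mul_of_nonneg_left ?_ (by positivity))
      have h3 := str_pow hq0 (2 * N + 1)
        (fun i => 2 * (2 ^ i / M) * (((Yi i l).card : ℝ) / 2 ^ N)) (fun i => hYn i l)
        (1 / M) (by positivity)
      have h4 : (((2 * N + 1 : ℕ) : ℝ) + 1) = 2 * (N : ℝ) + 2 := by
        push_cast
        ring
      rw [h4] at h3
      exact h3
    -- the sum over the lines
    have hL : (Fintype.card L : ℝ) * (1 / M) ^ q ≤ 3 ^ m := by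
      have h1 := hCARD m N L v hv
      rw [← hM, mul_pow] at h1
      have h2 : M ^ m * (1 / M) ^ q ≤ 1 := by
        rw [← Real.rpow_natCast, Real.div_rpow zero_le_one hM0.le, Real.one_rpow, mul_one_div,
          div_le_one (by positivity)]
        apply Real.rpow_le_rpow_of_exponent_le hM1
        rw [hq]
        linarith
      have h3 : 0 ≤ (1 / M) ^ q := by positivity
      calc (Fintype.card L : ℝ) * (1 / M) ^ q ≤ 3 ^ m * M ^ m * (1 / M) ^ q :=
            mul_le_mul_of_nonneg_right h1 h3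
        _ = 3 ^ m * (M ^ m * (1 / M) ^ q) := by ring
        _ ≤ 3 ^ m * 1 := mul_le_mul_of_nonneg_left h2 (by positivity)
        _ = 3 ^ m := mul_one _
    have hsumL : ∑ l, av N x v φ l ^ q ≤ s ^ q * ((2 * (N : ℝ) + 2) ^ q * (3 ^ m +
        (2 * (N : ℝ) + 1) * (((N : ℝ) + 1) * (C * Real.exp (ε / 2 * N) * 4 ^ q)))) := by
      refine (Finset.sum_le_sum fun l _ => hpt l).trans ?_
      rw [← Finset.mul_sum, ← Finset.mul_sum, Finset.sum_add_distrib, Finset.sum_const,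
        Finset.card_univ, nsmul_eq_mul, Finset.sum_comm]
      refine mul_le_mul_of_nonneg_left (mul_le_mul_of_nonneg_left (add_le_add hL ?_)
        (by positivity)) (by positivity)
      refine (Finset.sum_le_sum fun i _ => hone i).trans (le_of_eq ?_)
      rw [Finset.sum_const, Finset.card_range, nsmul_eq_mul]
      push_cast
      ring
    refine hsumL.trans ?_
    rw [hsq]
    have hN0 : (0 : ℝ) ≤ (N : ℝ) := Nat.cast_nonneg N
    have he1 : 1 ≤ Real.exp (ε / 2 * N) := Real.one_le_exp (by positivity)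
    have h4q : (0 : ℝ) < 4 ^ q := by positivity
    have hb : 3 ^ m + (2 * (N : ℝ) + 1) * (((N : ℝ) + 1) * (C * Real.exp (ε / 2 * N) * 4 ^ q))
        ≤ (2 * (N : ℝ) + 2) ^ (2 : ℝ) * ((3 ^ m + C * 4 ^ q) * Real.exp (ε / 2 * N)) := by
      have h1 : (2 * (N : ℝ) + 2) ^ (2 : ℝ) = (2 * (N : ℝ) + 2) ^ 2 := Real.rpow_two _
      rw [h1]
      have h2 : (1 : ℝ) ≤ (2 * (N : ℝ) + 2) ^ 2 := by nlinarith
      have h3 : (2 * (N : ℝ) + 1) * ((N : ℝ) + 1) ≤ (2 * (N : ℝ) + 2) ^ 2 := by nlinarith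
      have h5 : (3 : ℝ) ^ m ≤ (2 * (N : ℝ) + 2) ^ 2 * (3 ^ m * Real.exp (ε / 2 * N)) := by
        have h6 : (3 : ℝ) ^ m ≤ 3 ^ m * Real.exp (ε / 2 * N) :=
          le_mul_of_one_le_right (by positivity) he1
        have h7 : 3 ^ m * Real.exp (ε / 2 * N)
            ≤ (2 * (N : ℝ) + 2) ^ 2 * (3 ^ m * Real.exp (ε / 2 * N)) :=
          le_mul_of_one_le_left (by positivity) h2
        exact h6.trans h7
      have h8 : (2 * (N : ℝ) + 1) * (((N : ℝ) + 1) * (C * Real.exp (ε / 2 * N) * 4 ^ q))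
          ≤ (2 * (N : ℝ) + 2) ^ 2 * (C * 4 ^ q * Real.exp (ε / 2 * N)) := by
        have h9 := mul_le_mul_of_nonneg_right h3
          (show 0 ≤ C * 4 ^ q * Real.exp (ε / 2 * N) by positivity)
        linarith
      linarith
    have hfin := hpoly N
    rw [Real.rpow_add (by positivity)] at hfin
    have hexp : Real.exp (ε / 2 * N) * Real.exp (ε / 2 * N) = Real.exp (ε * N) := by
      rw [← Real.exp_add]
      congr 1
      ring
    calc S ^ α * ((2 * (N : ℝ) + 2) ^ q * (3 ^ m +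
        (2 * (N : ℝ) + 1) * (((N : ℝ) + 1) * (C * Real.exp (ε / 2 * N) * 4 ^ q))))
        ≤ S ^ α * ((2 * (N : ℝ) + 2) ^ q * ((2 * (N : ℝ) + 2) ^ (2 : ℝ)
          * ((3 ^ m + C * 4 ^ q) * Real.exp (ε / 2 * N)))) :=
          mul_le_mul_of_nonneg_left (mul_le_mul_of_nonneg_left hb (by positivity)) (by positivity)
      _ = S ^ α * ((2 * (N : ℝ) + 2) ^ q * (2 * (N : ℝ) + 2) ^ (2 : ℝ))
          * ((3 ^ m + C * 4 ^ q) * Real.exp (ε / 2 * N)) := by ring
      _ ≤ S ^ α * (C2 * Real.exp (ε / 2 * N))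
          * ((3 ^ m + C * 4 ^ q) * Real.exp (ε / 2 * N)) :=
          mul_le_mul_of_nonneg_right (mul_le_mul_of_nonneg_left hfin (by positivity))
            (by positivity)
      _ = C2 * (3 ^ m + C * 4 ^ q) * (Real.exp (ε / 2 * N) * Real.exp (ε / 2 * N)) * S ^ α := by
          ring
      _ = _ := by rw [hexp]
  · -- the function vanishes
    have h1 : ∀ e ∈ E, φ e.1 e.2 ^ d = 0 := by
      have h2 : ∑ e ∈ E, φ e.1 e.2 ^ d = 0 := by
        have h3 : (∑ e ∈ E, φ e.1 e.2 ^ d) / 2 ^ N = 0 := by rw [← hS]; exact hSz.symm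
        have h4 : (2 : ℝ) ^ N ≠ 0 := by positivity
        exact (div_eq_zero_iff.1 h3).resolve_right h4
      exact (Finset.sum_eq_zero_iff_of_nonneg hφd).1 h2
    have h5 : ∀ l, av N x v φ l = 0 := by
      intro l
      unfold av
      rw [Finset.sum_eq_zero, zero_div]
      intro t _
      have h6 := h1 _ (hE l t)
      exact (Real.rpow_eq_zero (hφ _ _) hd0.ne').1 h6
    rw [Finset.sum_eq_zero fun l _ => by rw [h5 l, Real.zero_rpow hq0.ne']]
    have h7 : 0 ≤ S ^ α := Real.rpow_nonneg hS0 α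
    positivity

end Pool.Agent.Helper75.KM
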